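import Mathlib
import Pool.Agent.Q157.SS.Sep
import Pool.Agent.Q153.SS.Lll
import Pool.Agent.Q153.SS.Wt
import Pool.Agent.Q153.SS.Use
import Pool.Agent.Q182.SS.Ev
import Pool.Agent.Q224.SS.Fin

/-!
# MP_68b2c8_al: the limit superior of `F(n) / √n` over the primitive groups is infinite

The groups are the symmetric groups `Sym V`, `|V| = t²`, acting on the 3-subsets of `V`. For every `C` and all large `t`
every family `A` of at most `C t³` 3-subsets has a permutation `g` of `V` with `A ∩ g A = ∅` (local lemma in the set of the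
permutations which are equal to a suitable involution on a bounded set of vertices), and `√n ≤ t³`.
-/

set_option autoImplicit false

namespace Pool.Agent.Results.MP_68b2c8_al.LimsupInfinite

open Pool.Agent.Q157.SS Filter

/-- `A` is self-separable for `G`: some `g ∈ G` satisfies `A ∩ g A = ∅`. -/
def SelfSeparable {Ω : Type} (G : Subgroup (Equiv.Perm Ω)) (A : Set Ω) : Prop :=
  ∃ g ∈ G, A ∩ g '' A = ∅

/-- `m(G)`, the least size of a subset of `Ω` which is not self-separable for `G`. -/
noncomputable def m {Ω : Type} (G : Subgroup (Equiv.Perm Ω)) : ℕ :=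
  sInf {k : ℕ | ∃ A : Set Ω, ¬ SelfSeparable G A ∧ A.ncard = k}

/-- The values `m(G)` of the primitive permutation groups `G` of degree `n`, other than the alternating and the symmetric
group of degree `n`. -/
def values (n : ℕ) : Set ℕ :=
  {k | ∃ (Ω : Type) (_ : Fintype Ω) (_ : DecidableEq Ω) (G : Subgroup (Equiv.Perm Ω)),
    Fintype.card Ω = n ∧ MulAction.IsPreprimitive G Ω ∧ G ≠ ⊤ ∧ G ≠ alternatingGroup Ω ∧ m G = k}

/-- `F(n)`, the maximum of these values. -/
noncomputable def F (n : ℕ) : ℕ := sSup (values n)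

/-- The set of the degrees of the primitive groups other than the alternating and symmetric groups. -/
def X : Set ℕ := {n | (values n).Nonempty}

theorem m_le {Ω : Type} [Fintype Ω] [Nonempty Ω] (G : Subgroup (Equiv.Perm Ω)) : m G ≤ Fintype.card Ω := by
  apply Nat.sInf_le
  refine ⟨Set.univ, ?_, ?_⟩
  · rintro ⟨g, _, hg⟩
    rw [Set.univ_inter, Set.image_eq_empty] at hg
    exact Set.univ_nonempty.ne_empty hg
  · rw [Set.ncard_univ, Nat.card_eq_fintype_card]

theorem lt_m {Ω : Type} [Fintype Ω] [Nonempty Ω] (G : Subgroup (Equiv.Perm Ω)) (c : ℝ)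
    (h : ∀ A : Set Ω, (A.ncard : ℝ) ≤ c → SelfSep G A) : c < m G := by
  have h1 : m G ∈ {k : ℕ | ∃ A : Set Ω, ¬ SelfSeparable G A ∧ A.ncard = k} := by
    apply Nat.sInf_mem
    refine ⟨Fintype.card Ω, Set.univ, ?_, ?_⟩
    · rintro ⟨g, _, hg⟩
      rw [Set.univ_inter, Set.image_eq_empty] at hg
      exact Set.univ_nonempty.ne_empty hg
    · rw [Set.ncard_univ, Nat.card_eq_fintype_card]
  obtain ⟨A, hA, hc⟩ := h1
  by_contra hcon
  push Not at hcon
  apply hA
  apply h
  rw [hc]
  exact hcon

/-- MP_68b2c8_al, Q1 in its negated form: the limit superior of `F(n) / √n` over the degrees `n ∈ X` is `+∞`. -/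
theorem result :
    limsup (fun n : ℕ => (((F n : ℝ) / √(n : ℝ) : ℝ) : EReal)) (atTop ⊓ 𝓟 X) = ⊤ := by
  have hfin : S_fin := Pool.Agent.Q224.SS.fin (sep
    (Pool.Agent.Q153.SS.use Pool.Agent.Q153.SS.lll Pool.Agent.Q182.SS.ev Pool.Agent.Q153.SS.wt) (sel seq))
  rw [EReal.eq_top_iff_forall_lt]
  intro y
  have h1 : ((y + 1 : ℝ) : EReal) ≤
      limsup (fun n : ℕ => (((F n : ℝ) / √(n : ℝ) : ℝ) : EReal)) (atTop ⊓ 𝓟 X) := by
    refine le_limsup_of_frequently_le ?_ (by isBoundedDefault)
    · rw [frequently_inf_principal, frequently_atTop]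
      intro N
      obtain ⟨Ω, i1, i2, G, hN, hprim, h3, h4, h5⟩ := hfin (y + 1) (N + 1)
      rw [Nat.card_eq_fintype_card] at hN h5
      have : Nonempty Ω := Fintype.card_pos_iff.1 (by omega)
      have hm := lt_m G ((y + 1) * √(Fintype.card Ω)) h5
      have hv : m G ∈ values (Fintype.card Ω) := ⟨Ω, i1, i2, G, rfl, hprim, h3, h4, rfl⟩
      refine ⟨Fintype.card Ω, by omega, ⟨_, hv⟩, ?_⟩
      have hbd : BddAbove (values (Fintype.card Ω)) := by
        refine ⟨Fintype.card Ω, ?_⟩
        rintro k ⟨Ω', j1, j2, G', hc, _, _, _, rfl⟩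
        have : Nonempty Ω' := Fintype.card_pos_iff.1 (by omega)
        rw [← hc]
        exact m_le G'
      have hF : m G ≤ F (Fintype.card Ω) := le_csSup hbd hv
      have hpos : (0 : ℝ) < √(Fintype.card Ω) := by
        apply Real.sqrt_pos.2
        exact_mod_cast (show 0 < Fintype.card Ω by omega)
      rw [EReal.coe_le_coe_iff, le_div_iff₀ hpos]
      have : (m G : ℝ) ≤ F (Fintype.card Ω) := by exact_mod_cast hF
      linarith
  exact lt_of_lt_of_le (EReal.coe_lt_coe_iff.2 (by linarith)) h1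

end Pool.Agent.Results.MP_68b2c8_al.LimsupInfinite
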